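import Pool.Agent.Helper45.CF.GoalsA

/-!
Packet CF-MUC (MP_d97caa_an): `C(Z, ·)` of a matrix algebra is a matrix algebra.
-/

set_option autoImplicit false

open scoped ComplexOrder ZeroAtInfty Topology
open TopologicalSpace

namespace Pool.Agent.Helper84.CF.MUC

open Pool.Agent.Helper34.CAR Pool.Agent.Helper39.CR Pool.Agent.Helper45.CF

section

variable {A M ι : Type} [NonUnitalCStarAlgebra A] [NonUnitalCStarAlgebra M] [Fintype ι]
  {e : ι → ι → A →ₗ[ℂ] M}

/-- The diagonal map as a *-homomorphism. -/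
noncomputable def hom (h : MUnits e) (j : ι) : A →⋆ₙₐ[ℂ] M where
  toFun := e j j
  map_smul' c a := map_smul (e j j) c a
  map_zero' := map_zero (e j j)
  map_add' a b := map_add (e j j) a b
  map_mul' a b := (h.mul j j j a b).symm
  map_star' a := (h.star j j a).symm

theorem norm_diag (h : MUnits e) (j : ι) (a : A) : ‖e j j a‖ = ‖a‖ := by
  have hinj : Function.Injective (hom h j) := by
    intro a b hab
    have h1 : e j j a = e j j b := hab
    have h2 : e j j (a - b) = 0 := by rw [map_sub, h1, sub_self]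
    exact sub_eq_zero.1 (h.inj j j _ h2)
  exact NonUnitalStarAlgHom.norm_map (hom h j) hinj a

theorem norm_e (h : MUnits e) (i j : ι) (a : A) : ‖e i j a‖ = ‖a‖ := by
  have h1 : ‖e i j a‖ * ‖e i j a‖ = ‖a‖ * ‖a‖ := by
    rw [← CStarRing.norm_star_mul_self (x := e i j a), h.star, h.mul, norm_diag h,
      CStarRing.norm_star_mul_self]
  exact (mul_self_inj (norm_nonneg _) (norm_nonneg _)).1 h1

theorem corner (h : MUnits e) (g : ι → ι → A) (i j : ι) (a b : A) :
    e i i a * (∑ p, ∑ q, e p q (g p q)) * e j j b = e i j (a * g i j * b) := by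
  rw [Finset.mul_sum, Finset.sum_mul, Finset.sum_eq_single i]
  · rw [Finset.mul_sum, Finset.sum_mul, Finset.sum_eq_single j]
    · rw [h.mul, h.mul]
    · intro q _ hq
      rw [h.mul, h.mul0 i q j j _ _ hq]
    · intro hj
      exact absurd (Finset.mem_univ j) hj
  · intro p _ hp
    rw [Finset.mul_sum, Finset.sum_mul]
    refine Finset.sum_eq_zero fun q _ => ?_
    rw [h.mul0 i i p q _ _ hp.symm, zero_mul]
  · intro hi
    exact absurd (Finset.mem_univ i) hi

theorem entry_le (h : MUnits e) (g : ι → ι → A) (x : M) (hx : x = ∑ p, ∑ q, e p q (g p q))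
    (i j : ι) : ‖g i j‖ ≤ ‖x‖ := by
  set c := g i j with hc
  by_cases h0 : ‖c‖ = 0
  · rw [h0]
    exact norm_nonneg x
  have hpos : 0 < ‖c‖ := lt_of_le_of_ne (norm_nonneg c) (Ne.symm h0)
  have h1 : e i i (star c) * x * e j j (star c * c) = e i j (star c * c * (star c * c)) := by
    rw [hx, corner h g i j, ← hc]
  have h2 : ‖star c * c * (star c * c)‖ = (‖c‖ * ‖c‖) * (‖c‖ * ‖c‖) := by
    have h3 : star (star c * c) = star c * c := by rw [star_mul, star_star]
    have h4 := CStarRing.norm_star_mul_self (x := star c * c)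
    rw [h3, CStarRing.norm_star_mul_self] at h4
    exact h4
  have h3 : ‖e i i (star c) * x * e j j (star c * c)‖ ≤ ‖c‖ * ‖x‖ * (‖c‖ * ‖c‖) := by
    refine (norm_mul_le _ _).trans ?_
    rw [norm_e h j j, CStarRing.norm_star_mul_self]
    refine mul_le_mul_of_nonneg_right ?_ (by positivity)
    refine (norm_mul_le _ _).trans ?_
    rw [norm_e h i i, norm_star]
  rw [h1, norm_e h, h2] at h3
  have h4 : (‖c‖ * ‖c‖ * ‖c‖) * ‖c‖ ≤ (‖c‖ * ‖c‖ * ‖c‖) * ‖x‖ := by
    calc (‖c‖ * ‖c‖ * ‖c‖) * ‖c‖ = (‖c‖ * ‖c‖) * (‖c‖ * ‖c‖) := by ring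
      _ ≤ ‖c‖ * ‖x‖ * (‖c‖ * ‖c‖) := h3
      _ = (‖c‖ * ‖c‖ * ‖c‖) * ‖x‖ := by ring
  exact le_of_mul_le_mul_left h4 (by positivity)

theorem continuous_e (h : MUnits e) (i j : ι) : Continuous (e i j) :=
  AddMonoidHomClass.continuous_of_bound (e i j) 1 fun a => by rw [norm_e h, one_mul]

end

theorem sum_apply' {Z M ι : Type} [TopologicalSpace Z] [NonUnitalCStarAlgebra M]
    (s : Finset ι) (f : ι → C(Z, M)) (z : Z) : (∑ i ∈ s, f i) z = ∑ i ∈ s, f i z := by
  classical
  induction s using Finset.induction_on with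
  | empty => simp
  | insert b s hb ih => rw [Finset.sum_insert hb, Finset.sum_insert hb, ContinuousMap.add_apply, ih]

theorem t : S_MUC := by
  intro Z A M ι _ _ _ _ _ e h
  refine ⟨fun i j =>
    { toFun := fun f => ⟨fun z => e i j (f z), (continuous_e h i j).comp f.continuous⟩
      map_add' := fun f g => ContinuousMap.ext fun z => map_add (e i j) (f z) (g z)
      map_smul' := fun c f => ContinuousMap.ext fun z => map_smul (e i j) c (f z) }, ?_,
    fun i j f z => rfl⟩
  constructor
  · intro i j k a b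
    exact ContinuousMap.ext fun z => h.mul i j k (a z) (b z)
  · intro i j k l a b hjk
    exact ContinuousMap.ext fun z => h.mul0 i j k l (a z) (b z) hjk
  · intro i j a
    exact ContinuousMap.ext fun z => h.star i j (a z)
  · intro i j a ha
    refine ContinuousMap.ext fun z => h.inj i j (a z) ?_
    exact DFunLike.congr_fun ha z
  · intro x
    choose F hF using fun z => h.span (x z)
    have hcont : ∀ i j, Continuous fun z => F z i j := by
      intro i j
      rw [continuous_iff_continuousAt]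
      intro z0
      rw [ContinuousAt, tendsto_iff_norm_sub_tendsto_zero]
      have hx : Filter.Tendsto (fun z => ‖x z - x z0‖) (𝓝 z0) (𝓝 0) :=
        tendsto_iff_norm_sub_tendsto_zero.1 (x.continuous.tendsto z0)
      refine squeeze_zero (fun z => norm_nonneg _) (fun z => ?_) hx
      refine entry_le h (fun p q => F z p q - F z0 p q) (x z - x z0) ?_ i j
      rw [hF z, hF z0, ← Finset.sum_sub_distrib]
      refine Finset.sum_congr rfl fun p _ => ?_
      rw [← Finset.sum_sub_distrib]
      refine Finset.sum_congr rfl fun q _ => ?_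
      rw [map_sub]
    refine ⟨fun i j => ⟨fun z => F z i j, hcont i j⟩, ?_⟩
    ext z
    rw [sum_apply', hF z]
    refine Finset.sum_congr rfl fun p _ => ?_
    rw [sum_apply']
    rfl

end Pool.Agent.Helper84.CF.MUC
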